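import Pool.Agent.Helper59_BN.DualFPP

/-!
The boundary norm of supercritical bond percolation on the square lattice is the time constant of
first-passage percolation on the dual lattice in which a dual edge has passage time one if it
crosses an open edge, and zero otherwise. The definitions are in
`Pool/Agent/Helper59_BN/Defs.lean` and `Pool/Agent/H974R2/Model.lean`.
-/

namespace Pool.Agent.Results.MP_44563c_pr.DualTimeConstant

open H974 MeasureTheory Filter Pool.Agent.Helper59_BN

/-- **The boundary norm is a time constant.** For every `p > 1/2` there is a function `β` such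
that for every `x ≠ 0`, almost surely: the least number of open edges crossed by a path of faces
from the face `(0, 0)` to the face `(⌊n x.1⌋, ⌊n x.2⌋)`, divided by `n`, converges to `β x`, and
so does the boundary distance of `u n` and `v n` divided by `n`, for every choice of vertices
`u n`, `v n` of the infinite cluster nearest to `0` and to `n x`. -/
theorem result (p : unitInterval) (hp : 1/2 < (p:ℝ)) : ∃ β : ℝ × ℝ → ℝ, ∀ x : ℝ × ℝ, x ≠ 0 →
    ∀ᵐ ω ∂bondLaw p,
      Tendsto (fun n : ℕ => (passageTime (openGraph ω).Adj (0, 0)
        (⌊(n:ℝ) * x.1⌋, ⌊(n:ℝ) * x.2⌋) : ℝ) / n) atTop (nhds (β x)) ∧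
      ∀ u v : ℕ → ℤ × ℤ, (∀ n, IsNearest ω 0 (u n)) → (∀ n : ℕ, IsNearest ω ((n:ℝ) • x) (v n)) →
        Tendsto (fun n : ℕ => (bdist (openGraph ω).Adj (u n) (v n) : ℝ) / n) atTop
          (nhds (β x)) :=
  dual_fpp p hp

end Pool.Agent.Results.MP_44563c_pr.DualTimeConstant
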