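import Pool.Agent.Helper59_BN.FSFinal

/-!
The boundary norm of supercritical bond percolation on the square lattice, on the scale
`⌈(p - 1/2)^(-4/3)⌉`, is approximated, uniformly up to the critical point, by means of passage
times across a fixed number of such scales. The definitions are in
`Pool/Agent/Helper59_BN/Defs.lean`, `Pool/Agent/Helper59_BN/FSDefs.lean` and
`Pool/Agent/H974R2/Model.lean`.
-/

namespace Pool.Agent.Results.MP_44563c_pr.FiniteSizeApproximation

open H974 MeasureTheory Filter Pool.Agent.Helper59_BN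

/-- **Uniform finite-size approximation of the boundary norm.** There is `K` such that for every
`ε > 0` there is `M0` such that for all `p ∈ (1/2, 3/4]`, all `M ≥ M0` and all `x` of maximum norm
one: almost surely, `scale p` times the boundary distance of nearest vertices of the infinite
cluster to `0` and to `n x`, divided by `n`, is for all large `n` within `ε` of the finite-size
mean `fsMean p K M x`; and so is `scale p * β x` if `β` is the boundary norm. -/
theorem result : ∃ K : ℕ, ∀ ε : ℝ, 0 < ε → ∃ M0 : ℕ, ∀ p : unitInterval,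
    1/2 < (p:ℝ) → (p:ℝ) ≤ 3/4 → ∀ M : ℕ, M0 ≤ M → ∀ x : ℝ × ℝ, ‖x‖ = 1 →
      (∀ᵐ ω ∂bondLaw p, ∀ᶠ n : ℕ in atTop, ∀ u v : ℤ × ℤ, IsNearest ω 0 u →
        IsNearest ω ((n:ℝ) • x) v →
          |(scale p : ℝ) * bdist (openGraph ω).Adj u v / n - fsMean p K M x| ≤ ε) ∧
      ∀ β : ℝ × ℝ → ℝ, IsBoundaryNorm p β → |(scale p : ℝ) * β x - fsMean p K M x| ≤ ε :=
  fs_result

end Pool.Agent.Results.MP_44563c_pr.FiniteSizeApproximation
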