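import Pool.Agent.Helper59_BN.FSFinal

/-!
The boundary norm of supercritical bond percolation on the square lattice is asymptotically
isotropic at the critical point if and only if means of passage times across a fixed number of
near-critical scales are. The definitions are in `Pool/Agent/Helper59_BN/Defs.lean`,
`Pool/Agent/Helper59_BN/FSDefs.lean` and `Pool/Agent/H974R2/Model.lean`.
-/

namespace Pool.Agent.Results.MP_44563c_pr.IsotropyCriterion

open H974 MeasureTheory Filter Pool.Agent.Helper59_BN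

/-- **A finite-size criterion for asymptotic isotropy.** Let `β p` be the boundary norm at `p` for
all `p > 1/2`. There are normalisations `c p > 0` with `β p x / c p → 1` as `p ↓ 1/2`, uniformly
on the Euclidean unit circle, if and only if for every `ε > 0` and every large `M`, for all `p`
close to `1/2`, the finite-size means `fsMean p K M x / euc x` at points `x` of maximum norm one
differ by at most `ε`. -/
theorem result : ∃ K : ℕ, ∀ β : unitInterval → ℝ × ℝ → ℝ,
    (∀ p : unitInterval, 1/2 < (p:ℝ) → IsBoundaryNorm p (β p)) →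
    ((∃ c : unitInterval → ℝ, (∀ p : unitInterval, 1/2 < (p:ℝ) → 0 < c p) ∧ ∀ η : ℝ, 0 < η →
        ∃ p0 : ℝ, 1/2 < p0 ∧ ∀ p : unitInterval, 1/2 < (p:ℝ) → (p:ℝ) < p0 → ∀ x : ℝ × ℝ,
          euc x = 1 → |β p x / c p - 1| ≤ η) ↔
      ∀ ε : ℝ, 0 < ε → ∃ M0 : ℕ, ∀ M : ℕ, M0 ≤ M → ∃ p0 : ℝ, 1/2 < p0 ∧ ∀ p : unitInterval,
        1/2 < (p:ℝ) → (p:ℝ) < p0 → ∀ x y : ℝ × ℝ, ‖x‖ = 1 → ‖y‖ = 1 →
          |fsMean p K M x / euc x - fsMean p K M y / euc y| ≤ ε) :=
  criterion

end Pool.Agent.Results.MP_44563c_pr.IsotropyCriterion
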