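import Pool.Agent.Helper59_BN.Order

/-!
The boundary norm of supercritical bond percolation on the square lattice is, uniformly in the
parameter, of order `(p - 1/2)^(4/3)`, and so is the size of its Wulff crystal. The definitions
are in `Pool/Agent/Helper59_BN/Defs.lean` and `Pool/Agent/H974R2/Model.lean`.
-/

namespace Pool.Agent.Results.MP_44563c_pr.NearCriticalOrder

open H974 MeasureTheory Filter Pool.Agent.Helper59_BN

/-- **The order of the boundary norm near criticality.** There are constants `c, C > 0` such that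
for every `p > 1/2`: almost surely the boundary distance between nearest vertices of the infinite
cluster to `0` and to `n x` lies between `c (p - 1/2)^(4/3) ‖x‖ n` and
`C (p - 1/2)^(4/3) ‖x‖ n` for all large `n`; and the Wulff crystal of the boundary norm contains
the disc of radius `c (p - 1/2)^(4/3)` and is contained in the disc of radius
`C (p - 1/2)^(4/3)`. -/
theorem result : ∃ c C : ℝ, 0 < c ∧ 0 < C ∧ ∀ p : unitInterval, 1/2 < (p:ℝ) →
    (∀ x : ℝ × ℝ, x ≠ 0 → ∀ᵐ ω ∂bondLaw p, ∀ᶠ n : ℕ in atTop, ∀ u v : ℤ × ℤ,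
      IsNearest ω 0 u → IsNearest ω ((n:ℝ) • x) v →
        c * ((p:ℝ) - 1/2) ^ (4/3 : ℝ) * ‖x‖ * n ≤ bdist (openGraph ω).Adj u v ∧
        bdist (openGraph ω).Adj u v ≤ C * ((p:ℝ) - 1/2) ^ (4/3 : ℝ) * ‖x‖ * n) ∧
    ∀ β : ℝ × ℝ → ℝ, IsBoundaryNorm p β →
      disc (c * ((p:ℝ) - 1/2) ^ (4/3 : ℝ)) ⊆ wulff β ∧
      wulff β ⊆ disc (C * ((p:ℝ) - 1/2) ^ (4/3 : ℝ)) :=
  order_result

end Pool.Agent.Results.MP_44563c_pr.NearCriticalOrder
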